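import Pool.Agent.H902R3.PZ.Dat
import Pool.Agent.Y861.SelZ.Main

/-!
# Members of the Selberg class with a pole of any order at `s = 1` and no zero at a zero of `ζ`

For EVERY `r ≥ 1` and every zero `ρ = 1/2 + iγ`, `γ > 0`, of `ζ` on the critical line, of multiplicity
`m`, there is a member `F` of the Selberg class with a pole of order exactly `r` at `s = 1` and with
`F(ρ) ≠ 0` and `F(conj ρ) ≠ 0`. So `F / ζ ^ j` has a pole of order `j m` at `ρ` for every `j ≥ 1`: not even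
the first power of `ζ` divides `F`. More generally every integer `k` with `0 ≤ k < r m` is the order of
vanishing of such an `F` at `ρ`.

Construction: `F = ζ ^ r * H ^ e`, `e = r m - k`, where `ζ H` is the function of the starting result
`ZetaDoesNotDivide`: `H` is an Euler product over a sparse set of primes with a functional equation
`s ↔ 1 - s`, whose only poles are simple poles at `ρ` and `conj ρ`.
-/

set_option autoImplicit false

open Complex

namespace Pool.Agent.Results.MP_995735_nt.AllOrders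

/-- The completed function `Φ(s) = Q^s ∏_{j ≤ k} Γ(λ_j s + μ_j) F(s)`. -/
noncomputable def Phi (F : ℂ → ℂ) (Q : ℝ) {k : ℕ} (lam : Fin k → ℝ) (mu : Fin k → ℂ) (s : ℂ) : ℂ :=
  (Q : ℂ) ^ s * (∏ j, Gamma ((lam j : ℂ) * s + mu j)) * F s

/-- The Selberg class: `a` is the sequence of coefficients of the Dirichlet series and `F` is its
continuation to `ℂ \ {1}` (the value of `F` at `1` is irrelevant). -/
structure IsSelberg (a : ℕ → ℂ) (F : ℂ → ℂ) : Prop where
  /-- axiom 1: the Dirichlet series converges absolutely for `Re s > 1` -/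
  abs_conv : ∀ s : ℂ, 1 < s.re → LSeriesSummable a s
  /-- `F` is the sum of the Dirichlet series for `Re s > 1` -/
  eq_series : ∀ s : ℂ, 1 < s.re → F s = LSeries a s
  /-- axiom 2: some `(s - 1)^m F(s)` is entire of finite order -/
  continuation : ∃ (m : ℕ) (G : ℂ → ℂ), Differentiable ℂ G ∧
    (∃ A C : ℝ, 0 < A ∧ ∀ s : ℂ, ‖G s‖ ≤ C * Real.exp (‖s‖ ^ A)) ∧
    ∀ s : ℂ, s ≠ 1 → G s = (s - 1) ^ m * F s
  /-- axiom 3: functional equation `Φ(s) = ω conj Φ(1 - conj s)`, at every `s ≠ 0, 1` at which no gamma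
  factor of `Φ(s)` or `Φ(1 - conj s)` has a pole -/
  functional : ∃ (Q : ℝ) (k : ℕ) (lam : Fin k → ℝ) (mu : Fin k → ℂ) (ω : ℂ),
    0 < Q ∧ (∀ j, 0 < lam j) ∧ (∀ j, 0 ≤ (mu j).re) ∧ ‖ω‖ = 1 ∧
    ∀ s : ℂ, s ≠ 0 → s ≠ 1 →
      (∀ j, ∀ n : ℕ, (lam j : ℂ) * s + mu j ≠ -(n : ℂ)) →
      (∀ j, ∀ n : ℕ, (lam j : ℂ) * (1 - starRingEnd ℂ s) + mu j ≠ -(n : ℂ)) →
      Phi F Q lam mu s = ω * starRingEnd ℂ (Phi F Q lam mu (1 - starRingEnd ℂ s))
  /-- axiom 4: `a(n) ≪ n^ε` -/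
  ramanujan : ∀ ε : ℝ, 0 < ε → ∃ C : ℝ, ∀ n : ℕ, 1 ≤ n → ‖a n‖ ≤ C * (n : ℝ) ^ ε
  /-- axiom 5, first part -/
  a_one : a 1 = 1
  /-- axiom 5: `log F(s) = ∑ b(n) n^{-s}`, `b` supported on prime powers, `b(n) ≪ n^θ`, `θ < 1/2` -/
  euler : ∃ (b : ℕ → ℂ) (θ : ℝ), θ < 1 / 2 ∧ (∀ n : ℕ, ¬ IsPrimePow n → b n = 0) ∧
    (∃ C : ℝ, ∀ n : ℕ, 1 ≤ n → ‖b n‖ ≤ C * (n : ℝ) ^ θ) ∧
    ∀ s : ℂ, 1 < s.re → LSeriesSummable b s ∧ exp (LSeries b s) = F s

open Pool.Agent.H902R3.PZ Pool.Agent.Y861.SelZ in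
theorem isSelberg (W : VDat) (r e k : ℕ) (hr : 1 ≤ r) (he : 1 ≤ e) (hk : e + k = r * W.m) :
    ∃ a : ℕ → ℂ, IsSelberg a (W.F r e k) := by
  obtain ⟨a, b, hab, hL⟩ := exists_eul W.D.hβ r e hr
  have hF : ∀ s : ℂ, 1 < s.re → W.F r e k s = LSeries a s := fun s hs => by
    rw [W.F_series r e k hk hs, hL s hs]
  refine ⟨a, ?_⟩
  constructor
  · exact hab.sum
  · exact hF
  · refine ⟨r, W.G r e k, W.G_diff r e k, W.G_growth r e k, fun s hs => ?_⟩
    have h1 : (s - 1) ^ r ≠ 0 := pow_ne_zero _ (sub_ne_zero.2 hs)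
    unfold VDat.F
    field_simp
  · refine ⟨W.Q r e, r + e, Fin.append (fun _ => 1 / 2) (fun _ => W.D.lam),
      Fin.append (fun _ => 0) (fun _ => 1 / 6), 1, W.Q_pos r e, ?_, ?_, by simp, ?_⟩
    · intro j
      refine Fin.addCases (fun i => ?_) (fun i => ?_) j
      · rw [Fin.append_left]; norm_num
      · rw [Fin.append_right]; exact W.D.lam_pos'
    · intro j
      refine Fin.addCases (fun i => ?_) (fun i => ?_) j
      · rw [Fin.append_left]; norm_num
      · rw [Fin.append_right]; norm_num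
    · intro s hs0 hs1 h1 h2
      have e1 : ∀ (w : ℂ) (i : Fin r), ((Fin.append (fun _ : Fin r => (1 / 2 : ℝ))
          (fun _ : Fin e => W.D.lam) (Fin.castAdd e i) : ℝ) : ℂ) * w +
          Fin.append (fun _ : Fin r => (0 : ℂ)) (fun _ : Fin e => (1 / 6 : ℂ)) (Fin.castAdd e i) =
          1 / 2 * w := by
        intro w i
        rw [Fin.append_left, Fin.append_left]
        push_cast
        ring
      have e2 : ∀ (w : ℂ) (i : Fin e), ((Fin.append (fun _ : Fin r => (1 / 2 : ℝ))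
          (fun _ : Fin e => W.D.lam) (Fin.natAdd r i) : ℝ) : ℂ) * w +
          Fin.append (fun _ : Fin r => (0 : ℂ)) (fun _ : Fin e => (1 / 6 : ℂ)) (Fin.natAdd r i) =
          (W.D.lam : ℂ) * w + 1 / 6 := by
        intro w i
        rw [Fin.append_right, Fin.append_right]
      have g1 : ∀ n : ℕ, (1 / 2 : ℂ) * s ≠ -(n : ℂ) := fun n => by
        rw [← e1 s ⟨0, hr⟩]; exact h1 _ n
      have g2 : ∀ n : ℕ, (W.D.lam : ℂ) * s + 1 / 6 ≠ -(n : ℂ) := fun n => by
        rw [← e2 s ⟨0, he⟩]; exact h1 _ n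
      have g3 : ∀ n : ℕ, (1 / 2 : ℂ) * (1 - starRingEnd ℂ s) ≠ -(n : ℂ) := fun n => by
        rw [← e1 (1 - starRingEnd ℂ s) ⟨0, hr⟩]; exact h2 _ n
      have g4 : ∀ n : ℕ, (W.D.lam : ℂ) * (1 - starRingEnd ℂ s) + 1 / 6 ≠ -(n : ℂ) := fun n => by
        rw [← e2 (1 - starRingEnd ℂ s) ⟨0, he⟩]; exact h2 _ n
      have key := W.FE' r e k hs0 hs1 g1 g2 g3 g4
      have hPhi : ∀ w : ℂ, Phi (W.F r e k) (W.Q r e) (Fin.append (fun _ : Fin r => (1 / 2 : ℝ))
          (fun _ : Fin e => W.D.lam)) (Fin.append (fun _ : Fin r => (0 : ℂ))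
          (fun _ : Fin e => (1 / 6 : ℂ))) w =
          W.F r e k w * ((W.Q r e : ℝ) : ℂ) ^ w *
            (Gamma (1 / 2 * w) ^ r * Gamma ((W.D.lam : ℂ) * w + 1 / 6) ^ e) := by
        intro w
        unfold Phi
        rw [Fin.prod_univ_add]
        simp only [e1, e2, Finset.prod_const, Finset.card_univ, Fintype.card_fin]
        ring
      rw [hPhi, hPhi, one_mul]
      exact key
  · exact hab.ram
  · exact hab.one
  · obtain ⟨C, hC⟩ := hab.bd
    exact ⟨b, 0, by norm_num, hab.supp, ⟨C, fun n _ => by rw [Real.rpow_zero, mul_one]; exact hC n⟩,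
      fun s hs => ⟨(hab.exp s hs).1, by rw [(hab.exp s hs).2, hF s hs]⟩⟩

/-- **Main theorem.** `ζ` has a zero `1/2 + iγ` with `γ > 0`. For every such zero, of multiplicity `m`,
every `r ≥ 1` and every `k < r m` there is a member `F` of the Selberg class which has a pole of order
exactly `r` at `s = 1` and vanishes to order exactly `k` at `1/2 + iγ` and at `1/2 - iγ`. In particular
(`k = 0`) for every `r ≥ 1` some member of the Selberg class with a pole of order exactly `r` at `s = 1`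
is not divisible by `ζ`: Q1 fails for every `r`, even with `ζ` in place of `ζ ^ r`. -/
theorem result :
    (∃ γ : ℝ, 0 < γ ∧ riemannZeta (1 / 2 + γ * I) = 0) ∧
    (∀ γ : ℝ, 0 < γ → riemannZeta (1 / 2 + γ * I) = 0 →
      ∃ m : ℕ, 1 ≤ m ∧ analyticOrderAt riemannZeta (1 / 2 + γ * I) = m ∧
        ∀ r : ℕ, 1 ≤ r → ∀ k : ℕ, k < r * m →
          ∃ (a : ℕ → ℂ) (F : ℂ → ℂ), IsSelberg a F ∧
            meromorphicOrderAt F 1 = ((-(r : ℤ) : ℤ) : WithTop ℤ) ∧
            analyticOrderAt F (1 / 2 + γ * I) = k ∧ analyticOrderAt F (1 / 2 - γ * I) = k) ∧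
    (∀ r : ℕ, 1 ≤ r → ∃ (a : ℕ → ℂ) (F : ℂ → ℂ), IsSelberg a F ∧
      meromorphicOrderAt F 1 = ((-(r : ℤ) : ℤ) : WithTop ℤ) ∧
      ¬ ∃ L : ℂ → ℂ, Differentiable ℂ L ∧ ∀ s : ℂ, s ≠ 1 → F s = riemannZeta s * L s) := by
  have main : ∀ γ : ℝ, 0 < γ → riemannZeta (1 / 2 + γ * I) = 0 →
      ∃ m : ℕ, 1 ≤ m ∧ analyticOrderAt riemannZeta (1 / 2 + γ * I) = m ∧
        ∀ r : ℕ, 1 ≤ r → ∀ k : ℕ, k < r * m →
          ∃ (a : ℕ → ℂ) (F : ℂ → ℂ), IsSelberg a F ∧
            meromorphicOrderAt F 1 = ((-(r : ℤ) : ℤ) : WithTop ℤ) ∧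
            analyticOrderAt F (1 / 2 + γ * I) = k ∧ analyticOrderAt F (1 / 2 - γ * I) = k := by
    intro γ hγ hz
    obtain ⟨D, hD⟩ := Pool.Agent.H902R3.PZ.exists_dat hγ hz
    obtain ⟨W, hW, hm⟩ := Pool.Agent.Y861.SelZ.exists_VDat D
    have hrho : D.rho = 1 / 2 + γ * I := by
      unfold Pool.Agent.H902R3.PZ.Dat.rho
      rw [hD]
    have hrho' : starRingEnd ℂ D.rho = 1 / 2 - γ * I := by
      rw [hrho, map_add, map_mul, Complex.conj_ofReal, Complex.conj_I, map_div₀, map_one,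
        Complex.conj_ofNat]
      ring
    rw [hrho] at hm
    have hne1 : (1 / 2 + γ * I : ℂ) ≠ 1 := by rw [← hrho]; exact D.rho_ne_one
    refine ⟨W.m, ?_, hm, fun r hr k hk => ?_⟩
    · rcases Nat.eq_zero_or_pos W.m with h | h
      · exfalso
        rw [h] at hm
        have hζ : AnalyticAt ℂ riemannZeta (1 / 2 + γ * I) := by
          have ho : IsOpen {z : ℂ | z ≠ 1} := isOpen_ne
          exact DifferentiableOn.analyticAt (s := {z : ℂ | z ≠ 1})
            (fun z hz => (differentiableAt_riemannZeta hz).differentiableWithinAt)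
            (ho.mem_nhds hne1)
        exact (hζ.analyticOrderAt_eq_zero.1 (by exact_mod_cast hm)) hz
      · exact h
    · obtain ⟨a, ha⟩ := isSelberg W r (r * W.m - k) k hr (by omega) (by omega)
      refine ⟨a, _, ha, W.order_one _ _ _, ?_, ?_⟩
      · rw [← hrho, ← hW]
        exact W.order_rho _ _ _
      · rw [← hrho', ← hW]
        exact W.order_conj_rho _ _ _
  refine ⟨Pool.Agent.H902R3.PZ.taskE, main, fun r hr => ?_⟩
  obtain ⟨γ, hγ, hz⟩ := Pool.Agent.H902R3.PZ.taskE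
  obtain ⟨m, hm1, -, h⟩ := main γ hγ hz
  obtain ⟨a, F, ha, h1, h2, -⟩ := h r hr 0 (Nat.mul_pos hr hm1)
  refine ⟨a, F, ha, h1, ?_⟩
  rintro ⟨L, hL, hF⟩
  have hne1 : (1 / 2 + γ * I : ℂ) ≠ 1 := by
    intro h
    have := congrArg Complex.re h
    simp at this
  have h3 : F (1 / 2 + γ * I) = 0 := by rw [hF _ hne1, hz, zero_mul]
  have h5 : F =ᶠ[nhds (1 / 2 + γ * I)] fun s => riemannZeta s * L s := by
    filter_upwards [isOpen_ne.mem_nhds hne1] with s hs
    exact hF s hs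
  have hζ : AnalyticAt ℂ riemannZeta (1 / 2 + γ * I) := by
    have ho : IsOpen {z : ℂ | z ≠ 1} := isOpen_ne
    exact DifferentiableOn.analyticAt (s := {z : ℂ | z ≠ 1})
      (fun z hz => (differentiableAt_riemannZeta hz).differentiableWithinAt)
      (ho.mem_nhds hne1)
  have h4 : AnalyticAt ℂ F (1 / 2 + γ * I) := (hζ.mul (hL.analyticAt _)).congr h5.symm
  exact (h4.analyticOrderAt_eq_zero.1 (by exact_mod_cast h2)) h3

end Pool.Agent.Results.MP_995735_nt.AllOrders
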